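import Pool.Agent.helper42.CQ.SpecC

/-!
# SE1: the history of a winning play, in units of `log (1 + b/m)`
-/

set_option autoImplicit false

namespace Pool.Agent.helper42.CQ

open Finset Pool.Agent.helper24.CG

theorem SE1 (hCO3 : CO3_stmt) (hGAM : GAM_stmt) (hWTB : WTB_stmt) : SE1_stmt := by
  intro N m b q l hN hm hb hq hqA hl
  obtain ⟨_, hmono, hgr⟩ := hGAM N m b
  have hwin : MakerWins N m b q ∅ ∅ := hmono _ q ∅ ∅ hqA hgr.1
  have hq2 : 1 ≤ q ^ 2 := Nat.one_le_pow _ _ hq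
  obtain ⟨H, K, hH, hK, hcl, hg, hch⟩ := hCO3 N m b q (q ^ 2) hN hm hq hq2 hwin
  have hβ : 0 < Real.log (1 + (b : ℝ) / (m : ℝ)) := by
    apply Real.log_pos
    have h1 : (0 : ℝ) < (b : ℝ) / (m : ℝ) := by
      apply div_pos
      · exact_mod_cast hb
      · exact_mod_cast hm
    linarith
  have hw := (hWTB N m b K H hm hb hH).2
  refine ⟨H, K, hH, hK, hcl, ?_, hch⟩
  have h2 : Real.log (1 + (b : ℝ) / (m : ℝ)) * ∑ e ∈ ed K, wt b m K H e ≤
      Real.log (1 + (b : ℝ) / (m : ℝ)) * ((q : ℝ) * l +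
      (Real.log ((q : ℝ) + 1) + Real.log (2 * (b : ℝ) + 3)) /
        Real.log (1 + (b : ℝ) / (m : ℝ))) := by
    rw [hw]
    have h3 : Real.log (1 + (b : ℝ) / (m : ℝ)) * ((q : ℝ) * l +
      (Real.log ((q : ℝ) + 1) + Real.log (2 * (b : ℝ) + 3)) /
        Real.log (1 + (b : ℝ) / (m : ℝ))) =
        (q : ℝ) * Real.log N + Real.log ((q : ℝ) + 1) + Real.log (2 * (b : ℝ) + 3) := by
      rw [hl]
      have hne := hβ.ne'
      generalize Real.log (1 + (b : ℝ) / (m : ℝ)) = β at hne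
      field_simp
      ring
    rw [h3]
    exact hg
  exact le_of_mul_le_mul_left h2 hβ

end Pool.Agent.helper42.CQ
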